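import Pool.Agent.Lib.MP_ac15a8_mp.Pair

set_option autoImplicit false

namespace Pool.Agent.MP_ac15a8_mp

open scoped InnerProductSpace
open Complex

section pair

variable {E : Type*} [NormedAddCommGroup E] [InnerProductSpace ℂ E]

/-- component estimate -/
theorem overlap_bound (e u v : E) (he : ‖e‖ = 1) (hu : ‖u‖ ≤ 1) (hv : ‖v‖ ≤ 1) :
    ‖⟪e, u⟫_ℂ‖ * ‖⟪e, v⟫_ℂ‖ -
      Real.sqrt (1 - ‖⟪e, u⟫_ℂ‖ ^ 2) * Real.sqrt (1 - ‖⟪e, v⟫_ℂ‖ ^ 2) ≤ ‖⟪u, v⟫_ℂ‖ := by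
  set a := ⟪e, u⟫_ℂ with ha
  set b := ⟪e, v⟫_ℂ with hb
  have hee : ⟪e, e⟫_ℂ = 1 := by rw [inner_self_eq_norm_sq_to_K, he]; simp
  have hxi : ∀ w : E, ‖w‖ ≤ 1 → ‖w - ⟪e, w⟫_ℂ • e‖ ≤ Real.sqrt (1 - ‖⟪e, w⟫_ℂ‖ ^ 2) := by
    intro w hw
    apply Real.le_sqrt_of_sq_le
    have h1 : ‖w - ⟪e, w⟫_ℂ • e‖ ^ 2 = ‖w‖ ^ 2 - ‖⟪e, w⟫_ℂ‖ ^ 2 := by
      rw [@norm_sub_sq ℂ, inner_smul_right, norm_smul, he, mul_one, ← inner_conj_symm w e,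
        RCLike.mul_conj]
      have : RCLike.re (((‖⟪e, w⟫_ℂ‖ : ℝ) : ℂ) ^ 2) = ‖⟪e, w⟫_ℂ‖ ^ 2 := by
        rw [← Complex.ofReal_pow]
        exact Complex.ofReal_re _
      have h3 : RCLike.re ((RCLike.ofReal ‖⟪e, w⟫_ℂ‖ : ℂ) ^ 2) = ‖⟪e, w⟫_ℂ‖ ^ 2 := this
      rw [h3]
      ring
    rw [h1]
    have h2 : ‖w‖ ^ 2 ≤ 1 := by
      have := norm_nonneg w
      nlinarith
    linarith
  have h1 : ⟪u - a • e, v - b • e⟫_ℂ = ⟪u, v⟫_ℂ - (starRingEnd ℂ a) * b := by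
    rw [inner_sub_left, inner_sub_right, inner_sub_right, inner_smul_right, inner_smul_left,
      inner_smul_left, inner_smul_right, hee, ← hb, ← inner_conj_symm u e, ← ha]
    ring
  have h2 : ‖⟪u - a • e, v - b • e⟫_ℂ‖ ≤
      Real.sqrt (1 - ‖a‖ ^ 2) * Real.sqrt (1 - ‖b‖ ^ 2) :=
    (norm_inner_le_norm _ _).trans
      (mul_le_mul (hxi u hu) (hxi v hv) (norm_nonneg _) (Real.sqrt_nonneg _))
  have h3 : ‖(starRingEnd ℂ a) * b‖ = ‖a‖ * ‖b‖ := by rw [norm_mul, RCLike.norm_conj]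
  have h4 : ‖(starRingEnd ℂ a) * b‖ ≤ ‖⟪u, v⟫_ℂ‖ + ‖⟪u - a • e, v - b • e⟫_ℂ‖ := by
    have : (starRingEnd ℂ a) * b = ⟪u, v⟫_ℂ - ⟪u - a • e, v - b • e⟫_ℂ := by rw [h1]; ring
    rw [this]
    exact norm_sub_le _ _
  linarith

/-- Pair lemma, normalised form. -/
theorem pair_unit (φ χ u1 u2 w1 w2 p1 r1 q1 s1 : E) (hφ : ‖φ‖ = 1) (hχ : ‖χ‖ = 1)
    (hu1 : ‖u1‖ ≤ 1) (hu2 : ‖u2‖ ≤ 1) (hw1 : ‖w1‖ ≤ 1) (hw2 : ‖w2‖ ≤ 1)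
    (e1 : ⟪χ, u1⟫_ℂ = ⟪w1, φ⟫_ℂ) (e2 : ⟪χ, u2⟫_ℂ = ⟪w2, φ⟫_ℂ)
    (e3 : ⟪u1, u2⟫_ℂ = ⟪r1, p1⟫_ℂ) (e4 : ⟪w1, w2⟫_ℂ = ⟪s1, q1⟫_ℂ) :
    (max (‖⟪χ, u1⟫_ℂ‖ - ‖p1‖ * ‖q1‖ / 2) 0) ^ 2 +
      (max (‖⟪χ, u2⟫_ℂ‖ - ‖r1‖ * ‖s1‖ / 2) 0) ^ 2 ≤ 1 := by
  set x := ‖⟪χ, u1⟫_ℂ‖ with hx
  set y := ‖⟪χ, u2⟫_ℂ‖ with hy
  have hx1 : x ≤ 1 := (norm_inner_le_norm _ _).trans (by rw [hχ, one_mul]; exact hu1)
  have hy1 : y ≤ 1 := (norm_inner_le_norm _ _).trans (by rw [hχ, one_mul]; exact hu2)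
  have hx' : x = ‖⟪φ, w1⟫_ℂ‖ := by rw [hx, e1, norm_inner_symm]
  have hy' : y = ‖⟪φ, w2⟫_ℂ‖ := by rw [hy, e2, norm_inner_symm]
  have h1 : x * y - Real.sqrt (1 - x ^ 2) * Real.sqrt (1 - y ^ 2) ≤ ‖p1‖ * ‖r1‖ := by
    have := overlap_bound χ u1 u2 hχ hu1 hu2
    rw [← hx, ← hy, e3] at this
    have h := norm_inner_le_norm (𝕜 := ℂ) r1 p1
    linarith
  have h2 : x * y - Real.sqrt (1 - x ^ 2) * Real.sqrt (1 - y ^ 2) ≤ ‖q1‖ * ‖s1‖ := by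
    have := overlap_bound φ w1 w2 hφ hw1 hw2
    rw [← hx', ← hy', e4] at this
    have h := norm_inner_le_norm (𝕜 := ℂ) s1 q1
    linarith
  exact scalar_core x y ‖p1‖ ‖q1‖ ‖r1‖ ‖s1‖ (norm_nonneg _) hx1 (norm_nonneg _) hy1
    (norm_nonneg _) (norm_nonneg _) (norm_nonneg _) (norm_nonneg _) h1 h2

/-- Pair lemma, scaled product form. -/
theorem pair_scaled (φ χ u1 u2 w1 w2 p1 r1 q1 s1 : E) (hs : 0 < ‖φ‖) (ht : 0 < ‖χ‖)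
    (hu1 : ‖u1‖ ≤ ‖φ‖) (hu2 : ‖u2‖ ≤ ‖φ‖) (hw1 : ‖w1‖ ≤ ‖χ‖) (hw2 : ‖w2‖ ≤ ‖χ‖)
    (e1 : ⟪χ, u1⟫_ℂ = ⟪w1, φ⟫_ℂ) (e2 : ⟪χ, u2⟫_ℂ = ⟪w2, φ⟫_ℂ)
    (e3 : ⟪u1, u2⟫_ℂ = ⟪r1, p1⟫_ℂ) (e4 : ⟪w1, w2⟫_ℂ = ⟪s1, q1⟫_ℂ) :
    (max (‖⟪χ, u1⟫_ℂ‖ - ‖p1‖ * ‖q1‖ / 2) 0) ^ 2 +
      (max (‖⟪χ, u2⟫_ℂ‖ - ‖r1‖ * ‖s1‖ / 2) 0) ^ 2 ≤ (‖φ‖ * ‖χ‖) ^ 2 := by
  set s := ‖φ‖ with hsdef
  set t := ‖χ‖ with htdef
  have hst : 0 < s * t := mul_pos hs ht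
  have hn : ∀ (k : ℝ) (v : E), 0 < k → ‖((k⁻¹ : ℝ) : ℂ) • v‖ = k⁻¹ * ‖v‖ := by
    intro k v hk
    rw [norm_smul, Complex.norm_real, Real.norm_eq_abs, abs_of_pos (inv_pos.2 hk)]
  have scale_le : ∀ (k : ℝ) (v : E), 0 < k → ‖v‖ ≤ k → ‖((k⁻¹ : ℝ) : ℂ) • v‖ ≤ 1 := by
    intro k v hk hv
    rw [hn k v hk]
    calc k⁻¹ * ‖v‖ ≤ k⁻¹ * k := mul_le_mul_of_nonneg_left hv (inv_pos.2 hk).le
      _ = 1 := inv_mul_cancel₀ hk.ne'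
  have hkey := pair_unit (((s⁻¹ : ℝ) : ℂ) • φ) (((t⁻¹ : ℝ) : ℂ) • χ) (((s⁻¹ : ℝ) : ℂ) • u1)
    (((s⁻¹ : ℝ) : ℂ) • u2) (((t⁻¹ : ℝ) : ℂ) • w1) (((t⁻¹ : ℝ) : ℂ) • w2)
    (((s⁻¹ : ℝ) : ℂ) • p1) (((s⁻¹ : ℝ) : ℂ) • r1) (((t⁻¹ : ℝ) : ℂ) • q1) (((t⁻¹ : ℝ) : ℂ) • s1)
    (by rw [hn s φ hs]; exact inv_mul_cancel₀ hs.ne')
    (by rw [hn t χ ht]; exact inv_mul_cancel₀ ht.ne')
    (scale_le s u1 hs hu1) (scale_le s u2 hs hu2) (scale_le t w1 ht hw1) (scale_le t w2 ht hw2)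
    (by rw [inner_smul_left, inner_smul_right, inner_smul_left, inner_smul_right, e1,
          Complex.conj_ofReal])
    (by rw [inner_smul_left, inner_smul_right, inner_smul_left, inner_smul_right, e2,
          Complex.conj_ofReal])
    (by rw [inner_smul_left, inner_smul_right, inner_smul_left, inner_smul_right, e3])
    (by rw [inner_smul_left, inner_smul_right, inner_smul_left, inner_smul_right, e4])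
  have hre : ∀ u : E, ‖⟪((t⁻¹ : ℝ) : ℂ) • χ, ((s⁻¹ : ℝ) : ℂ) • u⟫_ℂ‖ =
      (s * t)⁻¹ * ‖⟪χ, u⟫_ℂ‖ := by
    intro u
    rw [inner_smul_left, inner_smul_right, norm_mul, norm_mul, RCLike.norm_conj,
      Complex.norm_real, Complex.norm_real, Real.norm_eq_abs, Real.norm_eq_abs,
      abs_of_pos (inv_pos.2 hs), abs_of_pos (inv_pos.2 ht), mul_inv]
    ring
  rw [hre, hre, hn s p1 hs, hn t q1 ht, hn s r1 hs, hn t s1 ht] at hkey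
  have comp : ∀ (R P Q : ℝ),
      max (R - P * Q / 2) 0 = (s * t) * max ((s * t)⁻¹ * R - (s⁻¹ * P) * (t⁻¹ * Q) / 2) 0 := by
    intro R P Q
    rw [mul_max_of_nonneg _ _ hst.le, mul_zero]
    congr 1
    have : s * t * ((s * t)⁻¹ * R - (s⁻¹ * P) * (t⁻¹ * Q) / 2) =
        (s * t * (s * t)⁻¹) * R - (s * s⁻¹) * (t * t⁻¹) * (P * Q / 2) := by ring
    rw [this, mul_inv_cancel₀ hst.ne', mul_inv_cancel₀ hs.ne', mul_inv_cancel₀ ht.ne']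
    ring
  rw [comp ‖⟪χ, u1⟫_ℂ‖ ‖p1‖ ‖q1‖, comp ‖⟪χ, u2⟫_ℂ‖ ‖r1‖ ‖s1‖]
  have e : ∀ M N : ℝ, (s * t * M) ^ 2 + (s * t * N) ^ 2 = (s * t) ^ 2 * (M ^ 2 + N ^ 2) := by
    intro M N; ring
  rw [e]
  calc (s * t) ^ 2 * _ ≤ (s * t) ^ 2 * 1 := mul_le_mul_of_nonneg_left hkey (sq_nonneg _)
    _ = (s * t) ^ 2 := mul_one _

/-- Pair lemma, general form. -/
theorem pair_general (φ χ u1 u2 w1 w2 p1 r1 q1 s1 : E)
    (hu1 : ‖u1‖ ≤ ‖φ‖) (hu2 : ‖u2‖ ≤ ‖φ‖) (hw1 : ‖w1‖ ≤ ‖χ‖) (hw2 : ‖w2‖ ≤ ‖χ‖)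
    (e1 : ⟪χ, u1⟫_ℂ = ⟪w1, φ⟫_ℂ) (e2 : ⟪χ, u2⟫_ℂ = ⟪w2, φ⟫_ℂ)
    (e3 : ⟪u1, u2⟫_ℂ = ⟪r1, p1⟫_ℂ) (e4 : ⟪w1, w2⟫_ℂ = ⟪s1, q1⟫_ℂ) :
    (max ((⟪χ, u1⟫_ℂ).re - (‖p1‖ ^ 2 + ‖q1‖ ^ 2) / 4) 0) ^ 2 +
      (max ((⟪χ, u2⟫_ℂ).re - (‖r1‖ ^ 2 + ‖s1‖ ^ 2) / 4) 0) ^ 2 ≤ (‖φ‖ * ‖χ‖) ^ 2 := by
  have zero_case : ∀ (u p q : E), ⟪χ, u⟫_ℂ = 0 →
      max ((⟪χ, u⟫_ℂ).re - (‖p‖ ^ 2 + ‖q‖ ^ 2) / 4) 0 = 0 := by
    intro u p q h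
    apply max_eq_right
    rw [h]
    have := sq_nonneg ‖p‖
    have := sq_nonneg ‖q‖
    simp only [Complex.zero_re]
    linarith
  by_cases hφ0 : ‖φ‖ = 0
  · have z1 : u1 = 0 := norm_le_zero_iff.1 (hu1.trans hφ0.le)
    have z2 : u2 = 0 := norm_le_zero_iff.1 (hu2.trans hφ0.le)
    rw [zero_case u1 p1 q1 (by rw [z1, inner_zero_right]),
      zero_case u2 r1 s1 (by rw [z2, inner_zero_right])]
    nlinarith [sq_nonneg (‖φ‖ * ‖χ‖)]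
  by_cases hχ0 : ‖χ‖ = 0
  · have z1 : χ = 0 := norm_eq_zero.1 hχ0
    rw [zero_case u1 p1 q1 (by rw [z1, inner_zero_left]),
      zero_case u2 r1 s1 (by rw [z1, inner_zero_left])]
    nlinarith [sq_nonneg (‖φ‖ * ‖χ‖)]
  have hs : 0 < ‖φ‖ := lt_of_le_of_ne (norm_nonneg _) (Ne.symm hφ0)
  have ht : 0 < ‖χ‖ := lt_of_le_of_ne (norm_nonneg _) (Ne.symm hχ0)
  have hkey := pair_scaled φ χ u1 u2 w1 w2 p1 r1 q1 s1 hs ht hu1 hu2 hw1 hw2 e1 e2 e3 e4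
  have dom : ∀ (u p q : E), max ((⟪χ, u⟫_ℂ).re - (‖p‖ ^ 2 + ‖q‖ ^ 2) / 4) 0 ≤
      max (‖⟪χ, u⟫_ℂ‖ - ‖p‖ * ‖q‖ / 2) 0 := by
    intro u p q
    apply max_le_max _ le_rfl
    have h1 : (⟪χ, u⟫_ℂ).re ≤ ‖⟪χ, u⟫_ℂ‖ := Complex.re_le_norm _
    nlinarith [sq_nonneg (‖p‖ - ‖q‖)]
  have k1 := pow_le_pow_left₀ (le_max_right _ _) (dom u1 p1 q1) 2
  have k2 := pow_le_pow_left₀ (le_max_right _ _) (dom u2 r1 s1) 2
  linarith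

end pair

section blocks

variable {A : Type*} [Fintype A] [DecidableEq A]
variable {E : Type*} [NormedAddCommGroup E] [InnerProductSpace ℂ E]

/-- A block representation of a Hermitian projection. -/
structure IsBlockProj (L : A → A → E → E) : Prop where
  herm : ∀ i j u v, ⟪L i j u, v⟫_ℂ = ⟪u, L j i v⟫_ℂ
  idem : ∀ i j u, L i j u = ∑ k, L i k (L k j u)

theorem IsBlockProj.diag {L : A → A → E → E} (hL : IsBlockProj L) (j : A) (u : E) :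
    (⟪u, L j j u⟫_ℂ).re = ∑ k, ‖L k j u‖ ^ 2 := by
  rw [hL.idem j j u, inner_sum, Complex.re_sum]
  apply Finset.sum_congr rfl
  intro k _
  rw [← hL.herm k j u (L k j u), inner_self_eq_norm_sq_to_K]
  norm_cast

theorem IsBlockProj.half {L : A → A → E → E} (hL : IsBlockProj L) (i j : A) (hij : i ≠ j) (u : E) :
    2 * ‖L i j u‖ ≤ ‖u‖ := by
  have h1 := hL.diag j u
  have h2 : ‖L i j u‖ ^ 2 + ‖L j j u‖ ^ 2 ≤ ∑ k, ‖L k j u‖ ^ 2 := by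
    have := Finset.sum_le_sum_of_subset_of_nonneg (s := {i, j}) (t := Finset.univ)
      (f := fun k => ‖L k j u‖ ^ 2) (Finset.subset_univ _) (fun k _ _ => sq_nonneg _)
    rwa [Finset.sum_pair hij] at this
  have h3 : (⟪u, L j j u⟫_ℂ).re ≤ ‖u‖ * ‖L j j u‖ :=
    (Complex.re_le_norm _).trans (norm_inner_le_norm _ _)
  have h4 : (2 * ‖L i j u‖) ^ 2 ≤ ‖u‖ ^ 2 := by
    nlinarith [sq_nonneg (‖u‖ - 2 * ‖L j j u‖)]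
  exact le_of_sq_le_sq h4 (norm_nonneg _)

/-- pair contribution -/
noncomputable def nij (L : A → A → E → E) (χ : A → E) (i j : A) : ℝ :=
  -2 * (⟪χ j, L i j (χ i)⟫_ℂ).re - (‖L j i (χ i)‖ ^ 2 + ‖L i j (χ j)‖ ^ 2)

/-- decoupling into pairs -/
theorem IsBlockProj.decouple {L : A → A → E → E} (hL : IsBlockProj L) (χ : A → E) :
    -2 * ∑ i, ∑ j, (⟪χ j, L i j (χ i)⟫_ℂ).re ≤
      ∑ i, ∑ j ∈ Finset.univ.erase i, nij L χ i j := by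
  have split : ∀ f : A → A → ℝ, ∑ i, ∑ j, f i j = ∑ i, f i i + ∑ i, ∑ j ∈ Finset.univ.erase i, f i j := by
    intro f
    rw [← Finset.sum_add_distrib]
    apply Finset.sum_congr rfl
    intro i _
    rw [Finset.add_sum_erase _ _ (Finset.mem_univ i)]
  rw [split]
  have swap : ∑ i, ∑ j ∈ Finset.univ.erase i, ‖L j i (χ i)‖ ^ 2 =
      ∑ i, ∑ j ∈ Finset.univ.erase i, ‖L i j (χ j)‖ ^ 2 := by
    have e1 : ∀ f : A → A → ℝ, ∑ i, ∑ j ∈ Finset.univ.erase i, f i j =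
        ∑ i, ∑ j, if i = j then 0 else f i j := by
      intro f
      apply Finset.sum_congr rfl
      intro i _
      rw [← Finset.add_sum_erase _ _ (Finset.mem_univ i)]
      simp only [if_true, zero_add]
      apply Finset.sum_congr rfl
      intro j hj
      rw [if_neg (Finset.ne_of_mem_erase hj).symm]
    rw [e1, e1, Finset.sum_comm]
    apply Finset.sum_congr rfl
    intro i _
    apply Finset.sum_congr rfl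
    intro j _
    by_cases h : i = j
    · rw [if_pos h, if_pos h.symm]
    · rw [if_neg h, if_neg (Ne.symm h)]
  have diag_bound : ∑ i, ∑ j ∈ Finset.univ.erase i, ‖L j i (χ i)‖ ^ 2 ≤
      ∑ i, (⟪χ i, L i i (χ i)⟫_ℂ).re := by
    apply Finset.sum_le_sum
    intro i _
    rw [hL.diag i (χ i)]
    exact Finset.sum_le_sum_of_subset_of_nonneg (Finset.erase_subset _ _)
      (fun k _ _ => sq_nonneg _)
  have e2 : ∑ i, ∑ j ∈ Finset.univ.erase i, nij L χ i j =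
      -2 * ∑ i, ∑ j ∈ Finset.univ.erase i, (⟪χ j, L i j (χ i)⟫_ℂ).re -
      (∑ i, ∑ j ∈ Finset.univ.erase i, ‖L j i (χ i)‖ ^ 2 +
        ∑ i, ∑ j ∈ Finset.univ.erase i, ‖L i j (χ j)‖ ^ 2) := by
    unfold nij
    simp only [Finset.sum_sub_distrib, Finset.sum_add_distrib, Finset.mul_sum]
  rw [e2, ← swap]
  linarith

/-- the pair inequality for commuting block projections -/
theorem pair_blocks {L R : A → A → E → E} (hL : IsBlockProj L) (hR : IsBlockProj R)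
    (hc : ∀ i j k l u, L i j (R k l u) = R k l (L i j u))
    (χ : A → E) (i j : A) (hij : i ≠ j) :
    (max (nij L χ i j) 0) ^ 2 + (max (nij R χ i j) 0) ^ 2 ≤ (‖χ i‖ * ‖χ j‖) ^ 2 := by
  have hc' : ∀ i j k l u, R i j (L k l u) = L k l (R i j u) := fun i j k l u => (hc k l i j u).symm
  have key := pair_general (χ i) (χ j) ((-2 : ℂ) • L i j (χ i)) ((-2 : ℂ) • R i j (χ i))
    ((-2 : ℂ) • L j i (χ j)) ((-2 : ℂ) • R j i (χ j))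
    ((-2 : ℂ) • L j i (χ i)) ((-2 : ℂ) • R j i (χ i))
    ((-2 : ℂ) • L i j (χ j)) ((-2 : ℂ) • R i j (χ j))
  have n2 : ‖(-2 : ℂ)‖ = 2 := by simp
  have hn : ∀ v : E, ‖(-2 : ℂ) • v‖ = 2 * ‖v‖ := fun v => by rw [norm_smul, n2]
  have cj : (starRingEnd ℂ) (-2 : ℂ) = -2 := by simp [map_ofNat]
  have key2 := key (by rw [hn]; exact hL.half i j hij _) (by rw [hn]; exact hR.half i j hij _)
    (by rw [hn]; exact hL.half j i hij.symm _) (by rw [hn]; exact hR.half j i hij.symm _)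
    (by rw [inner_smul_right, inner_smul_left, cj, hL.herm j i])
    (by rw [inner_smul_right, inner_smul_left, cj, hR.herm j i])
    (by
      rw [inner_smul_right, inner_smul_left, inner_smul_right, inner_smul_left, hL.herm i j,
        hR.herm j i, hc j i i j])
    (by
      rw [inner_smul_right, inner_smul_left, inner_smul_right, inner_smul_left, hL.herm j i,
        hR.herm i j, hc i j j i])
  have r1 : ∀ M : A → A → E → E, (⟪χ j, (-2 : ℂ) • M i j (χ i)⟫_ℂ).re -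
      (‖(-2 : ℂ) • M j i (χ i)‖ ^ 2 + ‖(-2 : ℂ) • M i j (χ j)‖ ^ 2) / 4 = nij M χ i j := by
    intro M
    rw [inner_smul_right, hn, hn]
    unfold nij
    have : ((-2 : ℂ) * ⟪χ j, M i j (χ i)⟫_ℂ).re = -2 * (⟪χ j, M i j (χ i)⟫_ℂ).re := by
      simp
    rw [this]
    ring
  rw [r1 L, r1 R] at key2
  exact key2

/-- The abstract monogamy bound. -/
theorem abstract_bound {L R : A → A → E → E} (hL : IsBlockProj L) (hR : IsBlockProj R)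
    (hc : ∀ i j k l u, L i j (R k l u) = R k l (L i j u))
    (χ : A → E) (NB NC : ℝ) (hB0 : 0 ≤ NB) (hC0 : 0 ≤ NC)
    (hB : NB ≤ -2 * ∑ i, ∑ j, (⟪χ j, L i j (χ i)⟫_ℂ).re)
    (hC : NC ≤ -2 * ∑ i, ∑ j, (⟪χ j, R i j (χ i)⟫_ℂ).re) :
    NB ^ 2 + NC ^ 2 ≤ (∑ i, ∑ j ∈ Finset.univ.erase i, ‖χ i‖ * ‖χ j‖) ^ 2 := by
  have hB1 : NB ≤ ∑ i, ∑ j ∈ Finset.univ.erase i, max (nij L χ i j) 0 :=
    (hB.trans (hL.decouple χ)).trans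
      (Finset.sum_le_sum fun i _ => Finset.sum_le_sum fun j _ => le_max_left _ _)
  have hC1 : NC ≤ ∑ i, ∑ j ∈ Finset.univ.erase i, max (nij R χ i j) 0 :=
    (hC.trans (hR.decouple χ)).trans
      (Finset.sum_le_sum fun i _ => Finset.sum_le_sum fun j _ => le_max_left _ _)
  set z : ℂ := ∑ i, ∑ j ∈ Finset.univ.erase i,
    (⟨max (nij L χ i j) 0, max (nij R χ i j) 0⟩ : ℂ) with hz
  have hzre : z.re = ∑ i, ∑ j ∈ Finset.univ.erase i, max (nij L χ i j) 0 := by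
    rw [hz]; simp only [Complex.re_sum]
  have hzim : z.im = ∑ i, ∑ j ∈ Finset.univ.erase i, max (nij R χ i j) 0 := by
    rw [hz]; simp only [Complex.im_sum]
  have hznorm : ‖z‖ ≤ ∑ i, ∑ j ∈ Finset.univ.erase i, ‖χ i‖ * ‖χ j‖ := by
    rw [hz]
    refine (norm_sum_le _ _).trans (Finset.sum_le_sum fun i _ => ?_)
    refine (norm_sum_le _ _).trans (Finset.sum_le_sum fun j hj => ?_)
    have hij : i ≠ j := (Finset.ne_of_mem_erase hj).symm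
    have hp := pair_blocks hL hR hc χ i j hij
    apply le_of_sq_le_sq _ (mul_nonneg (norm_nonneg _) (norm_nonneg _))
    rw [← Complex.normSq_eq_norm_sq, Complex.normSq_mk]
    linarith [hp, (by ring : (max (nij L χ i j) 0) ^ 2 = max (nij L χ i j) 0 * max (nij L χ i j) 0),
      (by ring : (max (nij R χ i j) 0) ^ 2 = max (nij R χ i j) 0 * max (nij R χ i j) 0)]
  have h1 : NB ^ 2 ≤ z.re ^ 2 := pow_le_pow_left₀ hB0 (by rw [hzre]; exact hB1) 2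
  have h2 : NC ^ 2 ≤ z.im ^ 2 := pow_le_pow_left₀ hC0 (by rw [hzim]; exact hC1) 2
  have h3 : z.re ^ 2 + z.im ^ 2 = ‖z‖ ^ 2 := by
    rw [← Complex.normSq_eq_norm_sq, Complex.normSq_apply]; ring
  have h4 : ‖z‖ ^ 2 ≤ (∑ i, ∑ j ∈ Finset.univ.erase i, ‖χ i‖ * ‖χ j‖) ^ 2 :=
    pow_le_pow_left₀ (norm_nonneg _) hznorm 2
  linarith

end blocks

end Pool.Agent.MP_ac15a8_mp
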