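import Pool.Agent.Lib.MP_ac15a8_mp.Spec

set_option autoImplicit false

namespace Pool.Agent.MP_ac15a8_mp

open scoped InnerProductSpace Kronecker
open Complex Matrix

section pt

variable {A X Y : Type*} [Fintype A] [Fintype X] [Fintype Y] [DecidableEq A] [DecidableEq X]

/-- partial transpose of the reduction of a pure state -/
noncomputable def PT (f : A → X → Y → ℂ) : Matrix (A × X) (A × X) ℂ :=
  Matrix.of fun x y => ∑ k, f y.1 x.2 k * star (f x.1 y.2 k)

omit [Fintype A] [Fintype X] [DecidableEq A] [DecidableEq X] in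
theorem PT_apply (f : A → X → Y → ℂ) (x y : A × X) :
    PT f x y = ∑ k, f y.1 x.2 k * star (f x.1 y.2 k) := rfl

/-- rotated state -/
noncomputable def rot (U : Matrix A A ℂ) (f : A → X → Y → ℂ) : A → X → Y → ℂ :=
  fun e x k => ∑ i, star (U i e) * f i x k

omit [Fintype X] [Fintype Y] [DecidableEq X] in
theorem rot_inv (U : Matrix A A ℂ) (hU : U * star U = 1) (f : A → X → Y → ℂ) (i : A) (x : X) (k : Y) :
    f i x k = ∑ e, U i e * rot U f e x k := by
  unfold rot
  simp only [Finset.mul_sum]
  rw [Finset.sum_comm]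
  have h1 : ∀ j, ∑ e, U i e * (star (U j e) * f j x k) = (if i = j then 1 else 0) * f j x k := by
    intro j
    have h2 : (U * star U) i j = if i = j then 1 else 0 := by rw [hU, one_apply]
    rw [← h2, mul_apply, Finset.sum_mul]
    apply Finset.sum_congr rfl
    intro e _
    rw [star_apply]
    ring
  rw [Finset.sum_congr rfl (fun j _ => h1 j)]
  simp

/-- the unitary acting on the first factor -/
noncomputable def VV (X : Type*) [DecidableEq X] (U : Matrix A A ℂ) : Matrix (A × X) (A × X) ℂ :=
  (U.map star) ⊗ₖ (1 : Matrix X X ℂ)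

theorem VV_star_mul (U : Matrix A A ℂ) (hU : star U * U = 1) : (VV X U)ᴴ * VV X U = 1 := by
  unfold VV
  rw [conjTranspose_kronecker, ← mul_kronecker_mul, conjTranspose_one, one_mul]
  have h : (U.map star)ᴴ * U.map star = 1 := by
    ext i j
    have h2 : (star U * U) j i = if j = i then 1 else 0 := by rw [hU, one_apply]
    rw [mul_apply] at h2
    rw [mul_apply, one_apply]
    have h3 : (if i = j then (1 : ℂ) else 0) = if j = i then 1 else 0 := by
      by_cases h : i = j
      · rw [if_pos h, if_pos h.symm]
      · rw [if_neg h, if_neg (Ne.symm h)]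
    rw [h3, ← h2]
    apply Finset.sum_congr rfl
    intro k _
    simp only [conjTranspose_apply, map_apply, star_apply, star_star]
    ring
  rw [h, one_kronecker_one]

theorem VV_mul_star (U : Matrix A A ℂ) (hU : star U * U = 1) : VV X U * (VV X U)ᴴ = 1 :=
  mul_eq_one_comm.1 (VV_star_mul U hU)

theorem PT_rot (U : Matrix A A ℂ) (hU : U * star U = 1) (f : A → X → Y → ℂ) :
    PT f = VV X U * PT (rot U f) * (VV X U)ᴴ := by
  ext ⟨i, x⟩ ⟨j, y⟩
  rw [PT_apply, mul_apply, Fintype.sum_prod_type]
  simp only [mul_apply, Fintype.sum_prod_type, VV, kroneckerMap_apply, conjTranspose_apply,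
    map_apply, one_apply, PT_apply, mul_ite, mul_one, mul_zero, ite_mul, zero_mul,
    Finset.sum_ite_eq, Finset.mem_univ, if_true, star_mul', star_star]
  simp only [apply_ite star, star_zero, star_one, star_star, mul_ite, mul_zero, mul_one,
    Finset.sum_ite_eq, Finset.mem_univ, if_true]
  have h1 : ∀ k, f j x k * star (f i y k) =
      ∑ e', ∑ e, star (U i e) * (rot U f e' x k * star (rot U f e y k)) * U j e' := by
    intro k
    rw [rot_inv U hU f j x k, rot_inv U hU f i y k, star_sum, Finset.sum_mul]
    apply Finset.sum_congr rfl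
    intro e' _
    rw [Finset.mul_sum]
    apply Finset.sum_congr rfl
    intro e _
    rw [star_mul']
    ring
  simp only [h1]
  rw [Finset.sum_comm]
  apply Finset.sum_congr rfl
  intro e' _
  rw [Finset.sum_comm, Finset.sum_mul]
  apply Finset.sum_congr rfl
  intro e _
  rw [Finset.mul_sum, Finset.sum_mul]

end pt

end Pool.Agent.MP_ac15a8_mp
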