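import Pool.Agent.Lib.MP_ac15a8_mp.Abstract
import Pool.Agent.Lib.MP_ac15a8_mp.PT

set_option autoImplicit false

namespace Pool.Agent.MP_ac15a8_mp

open scoped InnerProductSpace Kronecker
open Complex Matrix

section block

variable {A X Y : Type*} [Fintype A] [Fintype X] [Fintype Y]

/-- the vector `χ_i` -/
noncomputable def vec (f : A → X → Y → ℂ) (i : A) : EuclideanSpace ℂ (X × Y) :=
  WithLp.toLp 2 fun p => f i p.1 p.2

/-- block `(i,j)` of `P` acting on the first factor -/
noncomputable def actL (P : Matrix (A × X) (A × X) ℂ) (i j : A) (u : EuclideanSpace ℂ (X × Y)) :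
    EuclideanSpace ℂ (X × Y) :=
  WithLp.toLp 2 fun p => ∑ x', P (i, p.1) (j, x') * u (x', p.2)

/-- block `(i,j)` of `Q` acting on the second factor -/
noncomputable def actR (Q : Matrix (A × Y) (A × Y) ℂ) (i j : A) (u : EuclideanSpace ℂ (X × Y)) :
    EuclideanSpace ℂ (X × Y) :=
  WithLp.toLp 2 fun p => ∑ y', Q (i, p.2) (j, y') * u (p.1, y')

omit [Fintype A] in
theorem inner_eq (u v : EuclideanSpace ℂ (X × Y)) :
    ⟪u, v⟫_ℂ = ∑ x, ∑ y, star (u (x, y)) * v (x, y) := by
  rw [PiLp.inner_apply, Fintype.sum_prod_type]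
  apply Finset.sum_congr rfl
  intro x _
  apply Finset.sum_congr rfl
  intro y _
  rw [RCLike.inner_apply, mul_comm]
  rfl

theorem actL_isBlockProj (P : Matrix (A × X) (A × X) ℂ) (hP : P.IsHermitian) (hPP : P * P = P) :
    IsBlockProj (actL (Y := Y) P) where
  herm := by
    intro i j u v
    rw [inner_eq, inner_eq]
    simp only [actL, star_sum, star_mul', Finset.sum_mul, Finset.mul_sum]
    rw [Finset.sum_congr rfl (fun x _ => Finset.sum_comm), Finset.sum_comm]
    apply Finset.sum_congr rfl
    intro x' _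
    rw [Finset.sum_comm]
    apply Finset.sum_congr rfl
    intro y _
    apply Finset.sum_congr rfl
    intro x _
    rw [hP.apply]
    ring
  idem := by
    intro i j u
    ext p
    simp only [actL, WithLp.ofLp_sum, Finset.sum_apply, Finset.mul_sum]
    have h : ∀ x', P (i, p.1) (j, x') = ∑ k, ∑ x'', P (i, p.1) (k, x'') * P (k, x'') (j, x') := by
      intro x'
      conv_lhs => rw [← hPP]
      rw [mul_apply, Fintype.sum_prod_type]
    rw [Finset.sum_congr rfl (fun x' _ => by rw [h x'])]
    simp only [Finset.sum_mul]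
    rw [Finset.sum_comm]
    apply Finset.sum_congr rfl
    intro k _
    rw [Finset.sum_comm]
    apply Finset.sum_congr rfl
    intro x'' _
    apply Finset.sum_congr rfl
    intro x' _
    ring

theorem actR_isBlockProj (Q : Matrix (A × Y) (A × Y) ℂ) (hQ : Q.IsHermitian) (hQQ : Q * Q = Q) :
    IsBlockProj (actR (X := X) Q) where
  herm := by
    intro i j u v
    rw [inner_eq, inner_eq]
    simp only [actR, star_sum, star_mul', Finset.sum_mul, Finset.mul_sum]
    apply Finset.sum_congr rfl
    intro x _
    rw [Finset.sum_comm]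
    apply Finset.sum_congr rfl
    intro y _
    apply Finset.sum_congr rfl
    intro y' _
    rw [hQ.apply]
    ring
  idem := by
    intro i j u
    ext p
    simp only [actR, WithLp.ofLp_sum, Finset.sum_apply, Finset.mul_sum]
    have h : ∀ x', Q (i, p.2) (j, x') = ∑ k, ∑ x'', Q (i, p.2) (k, x'') * Q (k, x'') (j, x') := by
      intro x'
      conv_lhs => rw [← hQQ]
      rw [mul_apply, Fintype.sum_prod_type]
    rw [Finset.sum_congr rfl (fun x' _ => by rw [h x'])]
    simp only [Finset.sum_mul]
    rw [Finset.sum_comm]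
    apply Finset.sum_congr rfl
    intro k _
    rw [Finset.sum_comm]
    apply Finset.sum_congr rfl
    intro x'' _
    apply Finset.sum_congr rfl
    intro x' _
    ring

omit [Fintype A] in
theorem act_comm (P : Matrix (A × X) (A × X) ℂ) (Q : Matrix (A × Y) (A × Y) ℂ) (i j k l : A)
    (u : EuclideanSpace ℂ (X × Y)) :
    actL P i j (actR Q k l u) = actR Q k l (actL P i j u) := by
  ext p
  simp only [actL, actR, Finset.mul_sum]
  rw [Finset.sum_comm]
  apply Finset.sum_congr rfl
  intro y' _
  apply Finset.sum_congr rfl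
  intro x' _
  ring

theorem trace_actL (P : Matrix (A × X) (A × X) ℂ) (f : A → X → Y → ℂ) :
    trace (P * PT f) = ∑ i, ∑ j, ⟪vec f j, actL P i j (vec f i)⟫_ℂ := by
  simp only [inner_eq, trace, diag, mul_apply, Fintype.sum_prod_type, PT_apply, vec, actL,
    Finset.mul_sum]
  apply Finset.sum_congr rfl
  intro i _
  rw [Finset.sum_comm]
  apply Finset.sum_congr rfl
  intro j _
  apply Finset.sum_congr rfl
  intro x _
  rw [Finset.sum_comm]
  apply Finset.sum_congr rfl
  intro y _
  apply Finset.sum_congr rfl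
  intro k _
  ring

theorem trace_actR (Q : Matrix (A × Y) (A × Y) ℂ) (f : A → X → Y → ℂ) :
    trace (Q * PT (fun i y x => f i x y)) = ∑ i, ∑ j, ⟪vec f j, actR Q i j (vec f i)⟫_ℂ := by
  simp only [inner_eq, trace, diag, mul_apply, Fintype.sum_prod_type, PT_apply, vec, actR,
    Finset.mul_sum]
  apply Finset.sum_congr rfl
  intro i _
  rw [Finset.sum_comm]
  apply Finset.sum_congr rfl
  intro j _
  rw [Finset.sum_congr rfl (fun y _ => Finset.sum_comm), Finset.sum_comm]
  apply Finset.sum_congr rfl
  intro x _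
  apply Finset.sum_congr rfl
  intro y _
  apply Finset.sum_congr rfl
  intro y' _
  ring

end block

end Pool.Agent.MP_ac15a8_mp
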