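import Pool.Agent.Lib.MP_ac15a8_mp.Block

set_option autoImplicit false

namespace Pool.Agent.MP_ac15a8_mp

open scoped InnerProductSpace Kronecker
open Complex Matrix

section fin

variable {A X Y : Type*} [Fintype A] [Fintype X] [Fintype Y] [DecidableEq A] [DecidableEq X]
  [DecidableEq Y]

omit [DecidableEq Y] in
/-- conjugated projection -/
theorem conj_proj (f : A → X → Y → ℂ) (U : Matrix A A ℂ) (hU : star U * U = 1)
    (P : Matrix (A × X) (A × X) ℂ) (hP : P.IsHermitian) (hPP : P * P = P) :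
    ∃ P' : Matrix (A × X) (A × X) ℂ, P'.IsHermitian ∧ P' * P' = P' ∧
      trace (P * PT f) = trace (P' * PT (rot U f)) := by
  have hU' : U * star U = 1 := mul_eq_one_comm.1 hU
  have hW : VV X U * (VV X U)ᴴ = 1 := VV_mul_star U hU
  refine ⟨(VV X U)ᴴ * P * VV X U, ?_, ?_, ?_⟩
  · have := isHermitian_conjTranspose_mul_mul (VV X U) hP
    exact this
  · calc (VV X U)ᴴ * P * VV X U * ((VV X U)ᴴ * P * VV X U)
        = (VV X U)ᴴ * P * (VV X U * (VV X U)ᴴ) * P * VV X U := by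
          simp only [Matrix.mul_assoc]
      _ = (VV X U)ᴴ * (P * P) * VV X U := by
          rw [hW]; simp only [Matrix.mul_assoc, Matrix.one_mul]
      _ = _ := by rw [hPP]
  · rw [PT_rot U hU' f]
    calc trace (P * (VV X U * PT (rot U f) * (VV X U)ᴴ))
        = trace ((P * (VV X U * PT (rot U f))) * (VV X U)ᴴ) := by
          simp only [Matrix.mul_assoc]
      _ = trace ((VV X U)ᴴ * (P * (VV X U * PT (rot U f)))) := trace_mul_comm _ _
      _ = _ := by simp only [Matrix.mul_assoc]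

/-- upper bound -/
theorem upper (f : A → X → Y → ℂ) (U : Matrix A A ℂ) (hU : star U * U = 1)
    (hB : (PT f).IsHermitian) (hC : (PT (fun i y x => f i x y)).IsHermitian) :
    (∑ i, (|hB.eigenvalues i| - hB.eigenvalues i)) ^ 2 +
      (∑ i, (|hC.eigenvalues i| - hC.eigenvalues i)) ^ 2 ≤
      (∑ i, ∑ j ∈ Finset.univ.erase i, ‖vec (rot U f) i‖ * ‖vec (rot U f) j‖) ^ 2 := by
  obtain ⟨P, hP, hPP, hPt⟩ := exists_neg_proj hB
  obtain ⟨Q, hQ, hQQ, hQt⟩ := exists_neg_proj hC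
  obtain ⟨P', hP', hPP', hPt'⟩ := conj_proj f U hU P hP hPP
  obtain ⟨Q', hQ', hQQ', hQt'⟩ := conj_proj (fun i y x => f i x y) U hU Q hQ hQQ
  have nonneg : ∀ x : ℝ, 0 ≤ |x| - x := fun x => by
    have := le_abs_self x
    linarith
  apply abstract_bound (actL_isBlockProj P' hP' hPP') (actR_isBlockProj Q' hQ' hQQ')
    (fun i j k l u => act_comm P' Q' i j k l u)
  · exact Finset.sum_nonneg (fun i _ => nonneg _)
  · exact Finset.sum_nonneg (fun i _ => nonneg _)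
  · rw [hPt, hPt', trace_actL, Complex.re_sum]
    simp only [Complex.re_sum]
    exact le_refl _
  · rw [hQt, hQt']
    have h := trace_actR Q' (rot U f)
    have h2 : rot U (fun i y x => f i x y) = fun i y x => rot U f i x y := rfl
    rw [h2, h, Complex.re_sum]
    simp only [Complex.re_sum]
    exact le_refl _

omit [DecidableEq X] [DecidableEq Y] in
/-- Schmidt decomposition -/
theorem schmidt (f : A → X → Y → ℂ) : ∃ U : Matrix A A ℂ, star U * U = 1 ∧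
    ∀ e e', e ≠ e' → ⟪vec (rot U f) e', vec (rot U f) e⟫_ℂ = 0 := by
  set Γ : Matrix A A ℂ := Matrix.of fun i j => ∑ x, ∑ y, f i x y * star (f j x y) with hΓ
  have hH : Γ.IsHermitian := by
    ext i j
    simp only [hΓ, conjTranspose_apply, of_apply, star_sum, star_mul', star_star]
    apply Finset.sum_congr rfl
    intro x _
    apply Finset.sum_congr rfl
    intro y _
    ring
  obtain ⟨U, d, hU, hd⟩ : ∃ (U : Matrix A A ℂ) (d : A → ℂ), star U * U = 1 ∧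
      star U * Γ * U = diagonal d := by
    refine ⟨hH.eigenvectorUnitary, fun i => (hH.eigenvalues i : ℂ), U_star_mul hH, ?_⟩
    have key : ∀ (V D G : Matrix A A ℂ), star V * V = 1 → G = V * D * star V →
        star V * G * V = D := by
      intro V D G h1 h2
      rw [h2]
      calc star V * (V * D * star V) * V = (star V * V) * D * (star V * V) := by
            simp only [Matrix.mul_assoc]
        _ = D := by rw [h1, Matrix.one_mul, Matrix.mul_one]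
    exact key _ _ _ (U_star_mul hH) (spec_decomp hH)
  refine ⟨U, hU, ?_⟩
  intro e e' hne
  have h1 : ⟪vec (rot U f) e', vec (rot U f) e⟫_ℂ = (star U * Γ * U) e e' := by
    rw [inner_eq, mul_apply]
    have key : ∀ x y, star (vec (rot U f) e' (x, y)) * vec (rot U f) e (x, y) =
        ∑ j, ∑ i, star (U i e) * (f i x y * star (f j x y)) * U j e' := by
      intro x y
      simp only [vec, rot, star_sum, star_mul', star_star, Finset.sum_mul, Finset.mul_sum]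
      rw [Finset.sum_comm]
      apply Finset.sum_congr rfl
      intro j _
      apply Finset.sum_congr rfl
      intro i _
      ring
    rw [Finset.sum_congr rfl (fun x _ => Finset.sum_congr rfl (fun y _ => key x y))]
    rw [Finset.sum_congr rfl (fun x _ => Finset.sum_comm), Finset.sum_comm]
    apply Finset.sum_congr rfl
    intro j _
    rw [mul_apply, Finset.sum_mul,
      Finset.sum_congr rfl (fun x _ => Finset.sum_comm), Finset.sum_comm]
    apply Finset.sum_congr rfl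
    intro i _
    simp only [hΓ, star_apply, of_apply, Finset.mul_sum, Finset.sum_mul]
  rw [h1, hd, diagonal_apply_ne _ hne]

omit [DecidableEq A] in
/-- Bessel for a normalised orthogonal family -/
theorem bessel {E : Type*} [NormedAddCommGroup E] [InnerProductSpace ℂ E] (χ : A → E)
    (horth : ∀ i j, i ≠ j → ⟪χ i, χ j⟫_ℂ = 0) (v : E) :
    ∑ i, ‖⟪((‖χ i‖⁻¹ : ℝ) : ℂ) • χ i, v⟫_ℂ‖ ^ 2 ≤ ‖v‖ ^ 2 := by
  set φ : A → E := fun i => ((‖χ i‖⁻¹ : ℝ) : ℂ) • χ i with hφ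
  have hon : Orthonormal ℂ (fun i : {i // χ i ≠ 0} => φ i) := by
    constructor
    · intro i
      simp only [hφ]
      rw [norm_smul, Complex.norm_real, Real.norm_eq_abs, abs_of_nonneg (inv_nonneg.2 (norm_nonneg _))]
      exact inv_mul_cancel₀ (norm_ne_zero_iff.2 i.2)
    · intro i j hij
      simp only [hφ]
      rw [inner_smul_left, inner_smul_right, horth i j (fun h => hij (Subtype.ext h))]
      simp
  classical
  have h1 : ∑ i, ‖⟪φ i, v⟫_ℂ‖ ^ 2 = ∑ i : {i // χ i ≠ 0}, ‖⟪φ i, v⟫_ℂ‖ ^ 2 := by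
    rw [← Finset.sum_filter_add_sum_filter_not Finset.univ (fun i => χ i ≠ 0)]
    have h2 : ∑ i ∈ Finset.univ.filter (fun i => ¬ (χ i ≠ 0)), ‖⟪φ i, v⟫_ℂ‖ ^ 2 = 0 := by
      apply Finset.sum_eq_zero
      intro i hi
      have h3 : χ i = 0 := by
        have := (Finset.mem_filter.1 hi).2
        exact not_not.1 this
      simp [hφ, h3]
    rw [h2, add_zero]
    exact Finset.sum_subtype _ (fun i => by simp) _
  have h2 : ∑ i : {i // χ i ≠ 0}, ‖⟪φ i, v⟫_ℂ‖ ^ 2 ≤ ‖v‖ ^ 2 :=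
    hon.sum_inner_products_le v
  calc ∑ i, ‖⟪φ i, v⟫_ℂ‖ ^ 2 = ∑ i : {i // χ i ≠ 0}, ‖⟪φ i, v⟫_ℂ‖ ^ 2 := h1
    _ ≤ _ := h2

end fin

section low

variable {A Z : Type*} [Fintype A] [Fintype Z]

theorem inner_eq' (u v : EuclideanSpace ℂ Z) : ⟪u, v⟫_ℂ = ∑ z, star (u z) * v z := by
  rw [PiLp.inner_apply]
  apply Finset.sum_congr rfl
  intro x _
  rw [RCLike.inner_apply, mul_comm]
  rfl

/-- the swap-type matrix -/
noncomputable def swp (φ : A → EuclideanSpace ℂ Z) : Matrix (A × Z) (A × Z) ℂ :=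
  Matrix.of fun a b => φ b.1 a.2 * star (φ a.1 b.2)

theorem swp_quad (φ : A → EuclideanSpace ℂ Z) (v : A × Z → ℂ) :
    star v ⬝ᵥ (swp φ *ᵥ v) = ∑ i, ∑ j,
      ⟪(WithLp.toLp 2 fun z => v (i, z) : EuclideanSpace ℂ Z), φ j⟫_ℂ *
        ⟪φ i, (WithLp.toLp 2 fun z => v (j, z) : EuclideanSpace ℂ Z)⟫_ℂ := by
  simp only [dotProduct, mulVec, swp, of_apply, Fintype.sum_prod_type, inner_eq', Pi.star_apply]
  apply Finset.sum_congr rfl
  intro i _
  simp only [Finset.mul_sum]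
  rw [Finset.sum_comm]
  apply Finset.sum_congr rfl
  intro j _
  rw [Finset.sum_comm]
  apply Finset.sum_congr rfl
  intro y _
  rw [Finset.sum_mul]
  apply Finset.sum_congr rfl
  intro x _
  ring

theorem swp_contraction (φ : A → EuclideanSpace ℂ Z)
    (hφ : ∀ v : EuclideanSpace ℂ Z, ∑ i, ‖⟪φ i, v⟫_ℂ‖ ^ 2 ≤ ‖v‖ ^ 2) (v : A × Z → ℂ) :
    ‖star v ⬝ᵥ (swp φ *ᵥ v)‖ ≤ ∑ i, ‖v i‖ ^ 2 := by
  set w : A → EuclideanSpace ℂ Z := fun i => WithLp.toLp 2 fun z => v (i, z) with hw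
  rw [swp_quad]
  calc ‖∑ i, ∑ j, ⟪w i, φ j⟫_ℂ * ⟪φ i, w j⟫_ℂ‖
      ≤ ∑ i, ∑ j, ‖⟪φ j, w i⟫_ℂ‖ * ‖⟪φ i, w j⟫_ℂ‖ := by
        refine (norm_sum_le _ _).trans (Finset.sum_le_sum fun i _ => ?_)
        refine (norm_sum_le _ _).trans (Finset.sum_le_sum fun j _ => ?_)
        rw [norm_mul, norm_inner_symm]
    _ ≤ ∑ i, ∑ j, (‖⟪φ j, w i⟫_ℂ‖ ^ 2 + ‖⟪φ i, w j⟫_ℂ‖ ^ 2) / 2 := by
        refine Finset.sum_le_sum fun i _ => Finset.sum_le_sum fun j _ => ?_
        have := sq_nonneg (‖⟪φ j, w i⟫_ℂ‖ - ‖⟪φ i, w j⟫_ℂ‖)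
        linarith
    _ = ∑ i, ∑ j, ‖⟪φ j, w i⟫_ℂ‖ ^ 2 := by
        have h1 : ∑ i, ∑ j, (‖⟪φ j, w i⟫_ℂ‖ ^ 2 + ‖⟪φ i, w j⟫_ℂ‖ ^ 2) / 2 =
            (∑ i, ∑ j, ‖⟪φ j, w i⟫_ℂ‖ ^ 2 + ∑ i, ∑ j, ‖⟪φ i, w j⟫_ℂ‖ ^ 2) / 2 := by
          simp only [← Finset.sum_div, Finset.sum_add_distrib]
        have h2 : ∑ i, ∑ j, ‖⟪φ i, w j⟫_ℂ‖ ^ 2 = ∑ i, ∑ j, ‖⟪φ j, w i⟫_ℂ‖ ^ 2 :=
          Finset.sum_comm
        rw [h1, h2]
        ring
    _ ≤ ∑ i, ‖w i‖ ^ 2 := Finset.sum_le_sum fun i _ => hφ (w i)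
    _ = _ := by
        rw [Fintype.sum_prod_type]
        apply Finset.sum_congr rfl
        intro i _
        rw [EuclideanSpace.norm_sq_eq]

theorem inner_normalised (χ : EuclideanSpace ℂ Z) :
    ⟪((‖χ‖⁻¹ : ℝ) : ℂ) • χ, χ⟫_ℂ = (‖χ‖ : ℂ) := by
  by_cases h : ‖χ‖ = 0
  · rw [norm_eq_zero.1 h]; simp
  · rw [inner_smul_left, inner_self_eq_norm_sq_to_K, Complex.conj_ofReal]
    have h2 : ((‖χ‖ : ℝ) : ℂ) ≠ 0 := Complex.ofReal_ne_zero.2 h
    push_cast
    field_simp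
    rfl

theorem trace_swp (φ χ : A → EuclideanSpace ℂ Z) :
    trace (swp φ * PT (fun i (z : Z) (_ : Unit) => χ i z)) =
      (∑ j, ⟪χ j, φ j⟫_ℂ) * (∑ i, ⟪φ i, χ i⟫_ℂ) := by
  simp only [trace, diag, mul_apply, Fintype.sum_prod_type, swp, of_apply, PT_apply, inner_eq',
    Finset.univ_unique, Finset.sum_singleton, Finset.sum_mul, Finset.mul_sum]
  apply Finset.sum_congr rfl
  intro i _
  conv_rhs => rw [Finset.sum_comm]
  conv_lhs => rw [Finset.sum_comm]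
  apply Finset.sum_congr rfl
  intro j _
  rw [Finset.sum_comm]
  apply Finset.sum_congr rfl
  intro y _
  apply Finset.sum_congr rfl
  intro x _
  ring

theorem trace_PT_unit (χ : A → EuclideanSpace ℂ Z) :
    trace (PT (fun i (z : Z) (_ : Unit) => χ i z)) = ((∑ i, ‖χ i‖ ^ 2 : ℝ) : ℂ) := by
  rw [Complex.ofReal_sum]
  simp only [trace, diag, Fintype.sum_prod_type, PT_apply, Finset.univ_unique,
    Finset.sum_singleton]
  apply Finset.sum_congr rfl
  intro i _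
  rw [EuclideanSpace.norm_sq_eq, Complex.ofReal_sum]
  apply Finset.sum_congr rfl
  intro x _
  rw [Complex.ofReal_pow]
  exact Complex.mul_conj' _

variable [DecidableEq A] [DecidableEq Z]

theorem sum_norm_mulVec (W : Matrix (A × Z) (A × Z) ℂ) (hW : W * Wᴴ = 1) (v : A × Z → ℂ) :
    ∑ i, ‖(Wᴴ *ᵥ v) i‖ ^ 2 = ∑ i, ‖v i‖ ^ 2 := by
  have h : ∀ w : A × Z → ℂ, ((∑ i, ‖w i‖ ^ 2 : ℝ) : ℂ) = star w ⬝ᵥ w := by
    intro w
    simp only [dotProduct, Pi.star_apply, Complex.ofReal_sum, Complex.ofReal_pow]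
    apply Finset.sum_congr rfl
    intro i _
    exact (Complex.conj_mul' _).symm
  apply Complex.ofReal_injective
  rw [h, h, star_mulVec, conjTranspose_conjTranspose, dotProduct_mulVec, vecMul_vecMul, hW,
    vecMul_one]

theorem conj_contraction (S W : Matrix (A × Z) (A × Z) ℂ) (hW : W * Wᴴ = 1)
    (hS : ∀ v, ‖star v ⬝ᵥ (S *ᵥ v)‖ ≤ ∑ i, ‖v i‖ ^ 2) (v : A × Z → ℂ) :
    ‖star v ⬝ᵥ ((W * S * Wᴴ) *ᵥ v)‖ ≤ ∑ i, ‖v i‖ ^ 2 := by
  have h1 : star v ⬝ᵥ ((W * S * Wᴴ) *ᵥ v) = star (Wᴴ *ᵥ v) ⬝ᵥ (S *ᵥ (Wᴴ *ᵥ v)) := by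
    rw [star_mulVec, conjTranspose_conjTranspose, ← dotProduct_mulVec, mulVec_mulVec,
      mulVec_mulVec, Matrix.mul_assoc]
  rw [h1, ← sum_norm_mulVec W hW v]
  exact hS _

end low

section fin2

variable {A X Y : Type*} [Fintype A] [Fintype X] [Fintype Y] [DecidableEq A] [DecidableEq X]
  [DecidableEq Y]

theorem lower (f : A → X → Y → ℂ) (U : Matrix A A ℂ) (hU : star U * U = 1)
    (horth : ∀ e e', e ≠ e' → ⟪vec (rot U f) e', vec (rot U f) e⟫_ℂ = 0)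
    (hG : (PT (fun i (z : X × Y) (_ : Unit) => f i z.1 z.2)).IsHermitian) :
    ∑ i, ∑ j ∈ Finset.univ.erase i, ‖vec (rot U f) i‖ * ‖vec (rot U f) j‖ ≤
      ∑ i, (|hG.eigenvalues i| - hG.eigenvalues i) := by
  have hU' : U * star U = 1 := mul_eq_one_comm.1 hU
  set χ := vec (rot U f) with hχ
  set φ : A → EuclideanSpace ℂ (X × Y) := fun i => ((‖χ i‖⁻¹ : ℝ) : ℂ) • χ i with hφ
  set W : Matrix (A × (X × Y)) (A × (X × Y)) ℂ := VV (X × Y) U with hWdef
  have hW : W * Wᴴ = 1 := VV_mul_star U hU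
  have hW' : Wᴴ * W = 1 := VV_star_mul U hU
  have hK : PT (fun i (z : X × Y) (_ : Unit) => f i z.1 z.2) =
      W * PT (fun i (z : X × Y) (_ : Unit) => χ i z) * Wᴴ :=
    PT_rot U hU' (fun i (z : X × Y) (_ : Unit) => f i z.1 z.2)
  have hcon := trace_le_of_contraction hG (W * swp φ * Wᴴ)
    (conj_contraction _ W hW (swp_contraction φ (bessel χ (fun i j hij => horth j i (Ne.symm hij)))))
  refine le_trans (le_of_eq ?_) hcon
  rw [hK]
  generalize hM : PT (fun i (z : X × Y) (_ : Unit) => χ i z) = M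
  have h1 : trace (W * swp φ * Wᴴ * (W * M * Wᴴ)) = trace (swp φ * M) := by
    calc trace (W * swp φ * Wᴴ * (W * M * Wᴴ)) = trace ((W * (swp φ * (Wᴴ * W) * M)) * Wᴴ) := by
          simp only [Matrix.mul_assoc]
      _ = trace (Wᴴ * (W * (swp φ * (Wᴴ * W) * M))) := trace_mul_comm _ _
      _ = trace ((Wᴴ * W) * (swp φ * (Wᴴ * W) * M)) := by rw [Matrix.mul_assoc Wᴴ W]
      _ = _ := by rw [hW', Matrix.one_mul, Matrix.mul_one]
  have h2 : trace (W * M * Wᴴ) = trace M := by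
    rw [trace_mul_comm, ← Matrix.mul_assoc, hW', Matrix.one_mul]
  rw [h1, h2, ← hM, trace_swp, trace_PT_unit]
  have h3 : ∀ i, ⟪φ i, χ i⟫_ℂ = (‖χ i‖ : ℂ) := fun i => inner_normalised (χ i)
  have h4 : ∀ i, ⟪χ i, φ i⟫_ℂ = (‖χ i‖ : ℂ) := by
    intro i
    rw [← inner_conj_symm, h3, Complex.conj_ofReal]
  simp only [h3, h4]
  rw [← Complex.ofReal_sum, ← Complex.ofReal_mul, Complex.ofReal_re, Complex.ofReal_re]
  have h5 : ∀ i, ∑ j ∈ Finset.univ.erase i, ‖χ i‖ * ‖χ j‖ = ‖χ i‖ * ∑ j, ‖χ j‖ - ‖χ i‖ ^ 2 := by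
    intro i
    rw [← Finset.mul_sum, ← Finset.add_sum_erase Finset.univ (fun j => ‖χ j‖) (Finset.mem_univ i)]
    ring
  rw [Finset.sum_congr rfl (fun i _ => h5 i), Finset.sum_sub_distrib, ← Finset.sum_mul]

/-- the monogamy inequality -/
theorem monogamy (f : A → X → Y → ℂ)
    (hG : (PT (fun i (z : X × Y) (_ : Unit) => f i z.1 z.2)).IsHermitian)
    (hB : (PT f).IsHermitian) (hC : (PT (fun i y x => f i x y)).IsHermitian) :
    (∑ i, (|hB.eigenvalues i| - hB.eigenvalues i)) ^ 2 +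
      (∑ i, (|hC.eigenvalues i| - hC.eigenvalues i)) ^ 2 ≤
      (∑ i, (|hG.eigenvalues i| - hG.eigenvalues i)) ^ 2 := by
  obtain ⟨U, hU, horth⟩ := schmidt f
  refine (upper f U hU hB hC).trans ?_
  apply pow_le_pow_left₀
  · exact Finset.sum_nonneg fun i _ => Finset.sum_nonneg fun j _ =>
      mul_nonneg (norm_nonneg _) (norm_nonneg _)
  · exact lower f U hU horth hG

end fin2

end Pool.Agent.MP_ac15a8_mp
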