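import Mathlib

set_option autoImplicit false

namespace Pool.Agent.MP_ac15a8_mp

open scoped InnerProductSpace
open Complex

/-- The scalar inequality behind the pair lemma. -/
theorem scalar_core (x y p q r s : ℝ) (hx0 : 0 ≤ x) (hx1 : x ≤ 1) (hy0 : 0 ≤ y) (hy1 : y ≤ 1)
    (hp : 0 ≤ p) (hq : 0 ≤ q) (hr : 0 ≤ r) (hs : 0 ≤ s)
    (h1 : x * y - Real.sqrt (1 - x ^ 2) * Real.sqrt (1 - y ^ 2) ≤ p * r)
    (h2 : x * y - Real.sqrt (1 - x ^ 2) * Real.sqrt (1 - y ^ 2) ≤ q * s) :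
    (max (x - p * q / 2) 0) ^ 2 + (max (y - r * s / 2) 0) ^ 2 ≤ 1 := by
  have hpq : 0 ≤ p * q := mul_nonneg hp hq
  have hrs : 0 ≤ r * s := mul_nonneg hr hs
  have f0 : 0 ≤ max (x - p * q / 2) 0 := le_max_right _ _
  have g0 : 0 ≤ max (y - r * s / 2) 0 := le_max_right _ _
  have fx : max (x - p * q / 2) 0 ≤ x := max_le (by linarith) hx0
  have gy : max (y - r * s / 2) 0 ≤ y := max_le (by linarith) hy0
  have fx2 : (max (x - p * q / 2) 0) ^ 2 ≤ x ^ 2 := pow_le_pow_left₀ f0 fx 2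
  have gy2 : (max (y - r * s / 2) 0) ^ 2 ≤ y ^ 2 := pow_le_pow_left₀ g0 gy 2
  by_cases hxy : x ^ 2 + y ^ 2 ≤ 1
  · linarith
  push Not at hxy
  have hX0 : 0 ≤ 1 - x ^ 2 := by nlinarith
  have hY0 : 0 ≤ 1 - y ^ 2 := by nlinarith
  set X := Real.sqrt (1 - x ^ 2) with hX
  set Y := Real.sqrt (1 - y ^ 2) with hY
  have hXn : 0 ≤ X := Real.sqrt_nonneg _
  have hYn : 0 ≤ Y := Real.sqrt_nonneg _
  have hX2 : X ^ 2 = 1 - x ^ 2 := Real.sq_sqrt hX0
  have hY2 : Y ^ 2 = 1 - y ^ 2 := Real.sq_sqrt hY0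
  have hXy : X < y := by
    apply lt_of_pow_lt_pow_left₀ 2 hy0
    linarith
  have hYx : Y < x := by
    apply lt_of_pow_lt_pow_left₀ 2 hx0
    linarith
  set c := x * y - X * Y with hc
  have hcpos : 0 < c := by
    have : X * Y < y * x := mul_lt_mul'' hXy hYx hXn hYn
    rw [hc]; linarith
  -- u + v ≥ c
  have huv : c ≤ p * q / 2 + r * s / 2 := by
    have h3 : c ^ 2 ≤ (p * r) * (q * s) := by
      have := mul_le_mul h1 h2 hcpos.le (mul_nonneg hp hr)
      nlinarith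
    have h4 : (p * r) * (q * s) ≤ (p * q / 2 + r * s / 2) ^ 2 := by
      nlinarith [sq_nonneg (p * q / 2 - r * s / 2)]
    apply le_of_sq_le_sq
    · linarith
    · linarith
  have hXc : y - c ≤ X := by
    -- y (1 - x) ≤ X (1 - Y)
    have h5 : (y * (1 - x)) ^ 2 ≤ (X * (1 - Y)) ^ 2 := by
      have e1 : (y * (1 - x)) ^ 2 = (1 - Y) * (1 + Y) * (1 - x) ^ 2 := by
        have : y ^ 2 = (1 - Y) * (1 + Y) := by linarith [hY2, (by ring : (1 - Y) * (1 + Y) = 1 - Y ^ 2)]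
        rw [mul_pow, this]
      have e2 : (X * (1 - Y)) ^ 2 = (1 - x) * (1 + x) * (1 - Y) ^ 2 := by
        have : X ^ 2 = (1 - x) * (1 + x) := by linarith [hX2, (by ring : (1 - x) * (1 + x) = 1 - x ^ 2)]
        rw [mul_pow, this]
      rw [e1, e2]
      have hY1 : Y ≤ 1 := by linarith
      have h6 : 0 ≤ (1 - Y) * (1 - x) := mul_nonneg (by linarith) (by linarith)
      have h7 : (1 + Y) * (1 - x) ≤ (1 + x) * (1 - Y) := by nlinarith
      calc (1 - Y) * (1 + Y) * (1 - x) ^ 2 = ((1 - Y) * (1 - x)) * ((1 + Y) * (1 - x)) := by ring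
        _ ≤ ((1 - Y) * (1 - x)) * ((1 + x) * (1 - Y)) := mul_le_mul_of_nonneg_left h7 h6
        _ = (1 - x) * (1 + x) * (1 - Y) ^ 2 := by ring
    have h8 : y * (1 - x) ≤ X * (1 - Y) := by
      apply le_of_sq_le_sq h5
      exact mul_nonneg hXn (by linarith)
    rw [hc]; linarith
  have hYc : x - c ≤ Y := by
    have h5 : (x * (1 - y)) ^ 2 ≤ (Y * (1 - X)) ^ 2 := by
      have e1 : (x * (1 - y)) ^ 2 = (1 - X) * (1 + X) * (1 - y) ^ 2 := by
        have : x ^ 2 = (1 - X) * (1 + X) := by linarith [hX2, (by ring : (1 - X) * (1 + X) = 1 - X ^ 2)]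
        rw [mul_pow, this]
      have e2 : (Y * (1 - X)) ^ 2 = (1 - y) * (1 + y) * (1 - X) ^ 2 := by
        have : Y ^ 2 = (1 - y) * (1 + y) := by linarith [hY2, (by ring : (1 - y) * (1 + y) = 1 - y ^ 2)]
        rw [mul_pow, this]
      rw [e1, e2]
      have hX1 : X ≤ 1 := by linarith
      have h6 : 0 ≤ (1 - X) * (1 - y) := mul_nonneg (by linarith) (by linarith)
      have h7 : (1 + X) * (1 - y) ≤ (1 + y) * (1 - X) := by nlinarith
      calc (1 - X) * (1 + X) * (1 - y) ^ 2 = ((1 - X) * (1 - y)) * ((1 + X) * (1 - y)) := by ring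
        _ ≤ ((1 - X) * (1 - y)) * ((1 + y) * (1 - X)) := mul_le_mul_of_nonneg_left h7 h6
        _ = (1 - y) * (1 + y) * (1 - X) ^ 2 := by ring
    have h8 : x * (1 - y) ≤ Y * (1 - X) := by
      apply le_of_sq_le_sq h5
      exact mul_nonneg hYn (by linarith)
    rw [hc]; linarith
  have hcy : c ≤ y := by
    have h9 : 0 ≤ X * Y := mul_nonneg hXn hYn
    have h10 : x * y ≤ y := by nlinarith
    linarith
  have hcx : c ≤ x := by
    have h9 : 0 ≤ X * Y := mul_nonneg hXn hYn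
    have h10 : x * y ≤ x := by nlinarith
    linarith
  set u := p * q / 2 with hu
  set v := r * s / 2 with hv
  have hu0 : 0 ≤ u := by rw [hu]; linarith
  have hv0 : 0 ≤ v := by rw [hv]; linarith
  by_cases hf : x - u ≤ 0
  · have : max (x - u) 0 = 0 := max_eq_right hf
    rw [this]
    nlinarith
  by_cases hg : y - v ≤ 0
  · have : max (y - v) 0 = 0 := max_eq_right hg
    rw [this]
    nlinarith
  push Not at hf hg
  rw [max_eq_left hf.le, max_eq_left hg.le]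
  by_cases huc : c ≤ u
  · have h11 : (x - u) ^ 2 ≤ Y ^ 2 := pow_le_pow_left₀ hf.le (by linarith) 2
    have h12 : (y - v) ^ 2 ≤ y ^ 2 := pow_le_pow_left₀ hg.le (by linarith) 2
    linarith
  · push Not at huc
    have h13 : (y - v) ^ 2 ≤ (y - c + u) ^ 2 := pow_le_pow_left₀ hg.le (by linarith) 2
    have k0 : x ^ 2 + (y - c) ^ 2 ≤ 1 := by
      have : (y - c) ^ 2 ≤ X ^ 2 := pow_le_pow_left₀ (by linarith) hXc 2
      linarith
    have k1 : (x - c) ^ 2 + y ^ 2 ≤ 1 := by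
      have : (x - c) ^ 2 ≤ Y ^ 2 := pow_le_pow_left₀ (by linarith) hYc 2
      linarith
    have h14 : c * ((x - u) ^ 2 + (y - c + u) ^ 2) ≤ c * 1 := by
      have e : c * ((x - u) ^ 2 + (y - c + u) ^ 2) =
          (c - u) * (x ^ 2 + (y - c) ^ 2) + u * ((x - c) ^ 2 + y ^ 2) - 2 * c * u * (c - u) := by
        ring
      rw [e]
      have m1 : (c - u) * (x ^ 2 + (y - c) ^ 2) ≤ (c - u) * 1 :=
        mul_le_mul_of_nonneg_left k0 (by linarith)
      have m2 : u * ((x - c) ^ 2 + y ^ 2) ≤ u * 1 := mul_le_mul_of_nonneg_left k1 hu0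
      have m3 : 0 ≤ 2 * c * u * (c - u) := by
        apply mul_nonneg _ (by linarith)
        exact mul_nonneg (by linarith) hu0
      linarith
    have h15 := le_of_mul_le_mul_left h14 hcpos
    linarith

end Pool.Agent.MP_ac15a8_mp
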