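import Pool.Agent.Lib.MP_ac15a8_mp.Abstract

set_option autoImplicit false

namespace Pool.Agent.MP_ac15a8_mp

open scoped InnerProductSpace
open Complex Matrix

section spec

variable {n : Type*} [Fintype n] [DecidableEq n]

theorem spec_decomp {K : Matrix n n ℂ} (hK : K.IsHermitian) :
    K = (hK.eigenvectorUnitary : Matrix n n ℂ) * diagonal (fun i => ((hK.eigenvalues i : ℝ) : ℂ)) *
      star (hK.eigenvectorUnitary : Matrix n n ℂ) := by
  conv_lhs => rw [hK.spectral_theorem, Unitary.conjStarAlgAut_apply]
  rfl

theorem U_star_mul {K : Matrix n n ℂ} (hK : K.IsHermitian) :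
    star (hK.eigenvectorUnitary : Matrix n n ℂ) * (hK.eigenvectorUnitary : Matrix n n ℂ) = 1 :=
  Unitary.coe_star_mul_self _

theorem U_mul_star {K : Matrix n n ℂ} (hK : K.IsHermitian) :
    (hK.eigenvectorUnitary : Matrix n n ℂ) * star (hK.eigenvectorUnitary : Matrix n n ℂ) = 1 :=
  Unitary.coe_mul_star_self _

theorem exists_neg_proj {K : Matrix n n ℂ} (hK : K.IsHermitian) :
    ∃ P : Matrix n n ℂ, P.IsHermitian ∧ P * P = P ∧
      ∑ i, (|hK.eigenvalues i| - hK.eigenvalues i) = -2 * (trace (P * K)).re := by
  set U : Matrix n n ℂ := (hK.eigenvectorUnitary : Matrix n n ℂ) with hU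
  have h1 : star U * U = 1 := U_star_mul hK
  set e : n → ℂ := fun i => if hK.eigenvalues i < 0 then 1 else 0 with he
  refine ⟨U * diagonal e * star U, ?_, ?_, ?_⟩
  · unfold Matrix.IsHermitian
    rw [← Matrix.star_eq_conjTranspose, star_mul, star_mul, star_star, Matrix.star_eq_conjTranspose,
      Matrix.star_eq_conjTranspose, Matrix.diagonal_conjTranspose, ← mul_assoc]
    congr 3
    ext i
    simp only [he, Pi.star_apply]
    split_ifs <;> simp
  · calc U * diagonal e * star U * (U * diagonal e * star U)
        = U * diagonal e * (star U * U) * diagonal e * star U := by simp only [mul_assoc]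
      _ = U * (diagonal e * diagonal e) * star U := by rw [h1, mul_one]; simp only [mul_assoc]
      _ = U * diagonal e * star U := by
        rw [diagonal_mul_diagonal]
        congr 3
        ext i
        simp only [he]
        split_ifs <;> simp
  · have h2 : trace (U * diagonal e * star U * K) =
        ((∑ i, (if hK.eigenvalues i < 0 then hK.eigenvalues i else 0) : ℝ) : ℂ) := by
      conv_lhs => rw [spec_decomp hK, ← hU]
      calc trace (U * diagonal e * star U *
            (U * diagonal (fun i => ((hK.eigenvalues i : ℝ) : ℂ)) * star U))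
          = trace (U * (diagonal e * (star U * U) * diagonal
              (fun i => ((hK.eigenvalues i : ℝ) : ℂ))) * star U) := by simp only [mul_assoc]
        _ = trace (diagonal e * diagonal (fun i => ((hK.eigenvalues i : ℝ) : ℂ))) := by
          rw [h1, mul_one, trace_mul_comm, ← mul_assoc, h1, one_mul]
        _ = _ := by
          rw [diagonal_mul_diagonal, trace_diagonal]
          push_cast
          apply Finset.sum_congr rfl
          intro i _
          simp only [he]
          split_ifs <;> simp
    rw [h2, Complex.ofReal_re, Finset.mul_sum]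
    apply Finset.sum_congr rfl
    intro i _
    split_ifs with h
    · rw [abs_of_neg h]; ring
    · rw [abs_of_nonneg (not_lt.1 h)]; ring

theorem trace_le_of_contraction {K : Matrix n n ℂ} (hK : K.IsHermitian) (S : Matrix n n ℂ)
    (hS : ∀ v : n → ℂ, ‖star v ⬝ᵥ (S *ᵥ v)‖ ≤ ∑ i, ‖v i‖ ^ 2) :
    (trace (S * K)).re - (trace K).re ≤ ∑ i, (|hK.eigenvalues i| - hK.eigenvalues i) := by
  set U : Matrix n n ℂ := (hK.eigenvectorUnitary : Matrix n n ℂ) with hU
  have h1 : star U * U = 1 := U_star_mul hK
  have h2 : trace (S * K) = ∑ i, (star U * S * U) i i * ((hK.eigenvalues i : ℝ) : ℂ) := by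
    conv_lhs => rw [spec_decomp hK, ← hU]
    have e1 : trace (S * (U * diagonal (fun i => ((hK.eigenvalues i : ℝ) : ℂ)) * star U)) =
        trace (star U * S * U * diagonal (fun i => ((hK.eigenvalues i : ℝ) : ℂ))) := by
      rw [← mul_assoc, trace_mul_comm]
      simp only [mul_assoc]
    rw [e1]
    simp only [trace, diag_apply, mul_diagonal]
  have h3 : ∀ i, ‖(star U * S * U) i i‖ ≤ 1 := by
    intro i
    have e2 : (star U * S * U) i i = star (fun k => U k i) ⬝ᵥ (S *ᵥ (fun k => U k i)) := by
      rw [mul_assoc, mul_apply]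
      rfl
    rw [e2]
    refine (hS _).trans (le_of_eq ?_)
    have e3 : (star U * U) i i = 1 := by rw [h1, one_apply_eq]
    rw [mul_apply] at e3
    have e4 : ((∑ k, ‖U k i‖ ^ 2 : ℝ) : ℂ) = ∑ k, star U i k * U k i := by
      push_cast
      apply Finset.sum_congr rfl
      intro k _
      rw [star_apply, ← Complex.ofReal_pow, ← Complex.normSq_eq_norm_sq]
      exact Complex.normSq_eq_conj_mul_self
    rw [e3] at e4
    exact_mod_cast e4
  have h4 : (trace K).re = ∑ i, hK.eigenvalues i := by
    rw [hK.trace_eq_sum_eigenvalues, Complex.re_sum]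
    apply Finset.sum_congr rfl
    intro i _
    exact Complex.ofReal_re _
  rw [h4, h2, Finset.sum_sub_distrib]
  apply sub_le_sub_right
  rw [Complex.re_sum]
  apply Finset.sum_le_sum
  intro i _
  calc ((star U * S * U) i i * ((hK.eigenvalues i : ℝ) : ℂ)).re
      ≤ ‖(star U * S * U) i i * ((hK.eigenvalues i : ℝ) : ℂ)‖ := Complex.re_le_norm _
    _ = ‖(star U * S * U) i i‖ * |hK.eigenvalues i| := by
      rw [norm_mul, Complex.norm_real, Real.norm_eq_abs]
    _ ≤ 1 * |hK.eigenvalues i| := mul_le_mul_of_nonneg_right (h3 i) (abs_nonneg _)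
    _ = |hK.eigenvalues i| := one_mul _

end spec

end Pool.Agent.MP_ac15a8_mp
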